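import Mathlib

open MulAction
open scoped commutatorElement

namespace Pool.Agent.H.MP_69a6f7_al

variable {G : Type} [Group G]

theorem stabIdx {Ω : Type} [Finite Ω] [MulAction G Ω] (K : Subgroup G) (c : Ω) (O : Set Ω) (h : ∀ g ∈ K, g • c ∈ O) :
    (stabilizer G c).relIndex K ≤ O.ncard := by
  have : (stabilizer G c).subgroupOf K = stabilizer K c := by ext; simp [Subgroup.mem_subgroupOf, Subgroup.smul_def]
  rw [Subgroup.relIndex, this, index_stabilizer]
  exact Set.ncard_le_ncard (by rintro _ ⟨g, rfl⟩; exact h g.1 g.2) (Set.toFinite _)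

theorem step {Ω : Type} [MulAction G Ω] (K : Subgroup G) (c : Ω) (O : Set Ω) (h : c ∈ O) :
    (fixingSubgroup G O).relIndex K =
      (fixingSubgroup G O).relIndex (stabilizer G c ⊓ K) * (stabilizer G c).relIndex K := by
  rw [Subgroup.relIndex_inf_mul_relIndex, inf_eq_left.2]
  exact fun g hg => (mem_fixingSubgroup_iff G).1 hg c h

theorem orb {Ω : Type} [Finite Ω] [MulAction G Ω] (A : Subgroup G) [hA : A.Normal]
    (hc : ∀ u ∈ A, ∀ v ∈ A, ∀ a : Ω, u • v • a = v • u • a) (b : Ω) (t : ℕ) :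
    ∀ K : Subgroup G, (∀ g ∈ K, g • b = b) →
      (orbit A b).ncard < {c ∈ orbit A b | ∀ g ∈ K, g • c = c}.ncard * 2 ^ (t + 1) →
      (fixingSubgroup G (orbit A b)).relIndex K ≤ (orbit A b).ncard ^ t := by
  have cj : ∀ g h : G, ∀ c : Ω, g • c = c → g • h • c = (g * h * g⁻¹) • c := fun g h c e => by
    rw [mul_smul, mul_smul, inv_smul_eq_iff.2 e.symm]
  have key : ∀ K : Subgroup G, (∀ g ∈ K, g • b = b) → ¬ K ≤ fixingSubgroup G (orbit A b) → ∃ c ∈ orbit A b,
      (∀ g ∈ K, g • c ∈ orbit A b) ∧ 2 * {c ∈ orbit A b | ∀ g ∈ K, g • c = c}.ncard ≤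
        {c' ∈ orbit A b | ∀ g ∈ stabilizer G c ⊓ K, g • c' = c'}.ncard := fun K hb hn => by
    obtain ⟨g0, hg0, hn⟩ := SetLike.not_le_iff_exists.1 hn
    rw [mem_fixingSubgroup_iff] at hn
    push Not at hn
    obtain ⟨_, ⟨h, rfl⟩, hn⟩ := hn
    simp only [Subgroup.smul_def] at hn
    refine ⟨h.1 • b, ⟨h, rfl⟩, fun g hg => ⟨⟨_, hA.conj_mem _ h.2 g⟩, (cj g h b (hb g hg)).symm⟩, ?_⟩
    set F := {c ∈ orbit A b | ∀ g ∈ K, g • c = c}
    have id : ∀ g ∈ K, ∀ c ∈ F, (g • h.1 • c = h.1 • c ↔ g • h.1 • b = h.1 • b) := by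
      rintro g hg _ ⟨⟨u, rfl⟩, hu⟩
      simp only [Subgroup.smul_def] at hu ⊢
      rw [cj g h _ (hu g hg), hc _ (hA.conj_mem _ h.2 g) _ u.2, hc _ h.2 _ u.2, ← cj g h b (hb g hg), smul_left_cancel_iff]
    have dj : Disjoint F ((fun c => h.1 • c) '' F) := Set.disjoint_left.2 (by
      rintro _ h1 ⟨c, h2, rfl⟩
      exact hn ((id g0 hg0 c h2).1 (h1.2 g0 hg0)))
    rw [two_mul]
    nth_rewrite 2 [← Set.ncard_image_of_injective F (MulAction.injective h.1)]
    rw [← Set.ncard_union_eq dj]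
    refine Set.ncard_le_ncard ?_ (Set.toFinite _)
    rintro _ (h1 | ⟨c, h1, rfl⟩)
    · exact ⟨h1.1, fun g hg => h1.2 g hg.2⟩
    · refine ⟨?_, fun g hg => (id g hg.2 c h1).2 hg.1⟩
      obtain ⟨u, rfl⟩ := h1.1
      exact ⟨h * u, mul_smul _ _ _⟩
  have pos : 0 < (orbit A b).ncard := (Set.ncard_pos (Set.toFinite _)).2 ⟨b, mem_orbit_self b⟩
  induction t with
  | zero =>
    intro K hb hl
    by_cases hn : K ≤ fixingSubgroup G (orbit A b)
    · simp [Subgroup.relIndex_eq_one.2 hn]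
    obtain ⟨c, _, _, h⟩ := key K hb hn
    have := Set.ncard_le_ncard (Set.sep_subset (orbit A b) fun c' => ∀ g ∈ stabilizer G c ⊓ K, g • c' = c') (Set.toFinite _)
    omega
  | succ t ih =>
    intro K hb hl
    by_cases hn : K ≤ fixingSubgroup G (orbit A b)
    · rw [Subgroup.relIndex_eq_one.2 hn]; exact Nat.pow_pos pos
    obtain ⟨c, h1, h2, h⟩ := key K hb hn
    rw [step K c _ h1, pow_succ]
    refine Nat.mul_le_mul (ih _ (fun g hg => hb g hg.2) (hl.trans_le ?_)) (stabIdx K c _ h2)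
    calc _ = (2 * {c ∈ orbit A b | ∀ g ∈ K, g • c = c}.ncard) * 2 ^ (t + 1) := by ring
      _ ≤ _ := Nat.mul_le_mul_right _ h

theorem num (k : ℕ) (hk : 0 < k) : k ^ Nat.log 2 k * k * 8 ≤ 8 ^ k := by
  have h1 := Nat.pow_log_le_self 2 hk.ne'
  have h2 := Nat.lt_pow_succ_log_self (b := 2) (by norm_num) k
  generalize Nat.log 2 k = t at *
  have h3 : ∀ t : ℕ, t * (t + 1) + 2 ≤ 2 * 2 ^ t := fun t => by
    induction t with
    | zero => simp
    | succ t ih => have := Nat.lt_two_pow_self (n := t); rw [pow_succ]; nlinarith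
  have h4 : k * 2 ≤ 2 ^ k := by
    obtain ⟨j, rfl⟩ : ∃ j, k = j + 1 := ⟨k - 1, by omega⟩
    have := Nat.lt_two_pow_self (n := j); rw [pow_succ]; omega
  have h5 : k ^ t * 4 ≤ 2 ^ (2 * k) := by
    calc _ ≤ (2 ^ (t + 1)) ^ t * 2 ^ 2 := Nat.mul_le_mul_right _ (Nat.pow_le_pow_left h2.le _)
      _ = 2 ^ (t * (t + 1) + 2) := by ring
      _ ≤ _ := Nat.pow_le_pow_right (by norm_num) (by have := h3 t; omega)
  calc _ = (k ^ t * 4) * (k * 2) := by ring
    _ ≤ 2 ^ (2 * k) * 2 ^ k := Nat.mul_le_mul h5 h4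
    _ = _ := by rw [show 8 = 2 ^ 3 by norm_num, ← pow_mul]; ring

theorem order (d : ℕ) : ∀ (Ω : Type) [Finite Ω] [MulAction G Ω], (∀ g ∈ derivedSeries G d, ∀ a : Ω, g • a = a) →
    (toPermHom G Ω).ker.index ≤ 8 ^ Nat.card Ω := by
  induction d with
  | zero =>
    intro Ω _ _ h
    rw [Subgroup.index_eq_one.2 (eq_top_iff.2 fun g _ => Equiv.ext (h g trivial))]
    exact Nat.pow_pos (by norm_num)
  | succ d ih =>
    intro Ω _ _ h
    classical
    set A := derivedSeries G d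
    have hA : A.Normal := derivedSeries_normal G d
    have hc : ∀ u ∈ A, ∀ v ∈ A, ∀ a : Ω, u • v • a = v • u • a := fun u hu v hv a => by
      have := h _ (Subgroup.commutator_mem_commutator hu hv) (v • u • a)
      rw [← this, commutatorElement_def]; simp [mul_smul]
    let Q := orbitRel.Quotient A Ω
    let _ : MulAction G Q :=
      { smul := fun g => Quotient.map' (fun a => g • a) (by
          rintro _ b ⟨u, rfl⟩
          exact ⟨⟨_, hA.conj_mem _ u.2 g⟩, by simp [Subgroup.smul_def, mul_smul]⟩)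
        one_smul := fun q => Quotient.inductionOn' q fun a => congrArg Quotient.mk'' (one_smul G a)
        mul_smul := fun g g' q => Quotient.inductionOn' q fun a => congrArg Quotient.mk'' (mul_smul g g' a) }
    have sm : ∀ (g : G) (a : Ω), g • (Quotient.mk'' a : Q) = Quotient.mk'' (g • a) := fun _ _ => rfl
    have i1 := ih Q fun g hg q => Quotient.inductionOn' q fun a => Quotient.sound' ⟨⟨g, hg⟩, rfl⟩
    have le : (toPermHom G Ω).ker ≤ (toPermHom G Q).ker := fun g hg => Equiv.ext fun q =>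
      Quotient.inductionOn' q fun a => congrArg Quotient.mk'' (Equiv.congr_fun hg a)
    have := Fintype.ofFinite Q
    have e : (toPermHom G Ω).ker = ⨅ q : Q, fixingSubgroup G (orbit A (Quotient.out q)) := by
      ext g
      simp only [Subgroup.mem_iInf, mem_fixingSubgroup_iff, MonoidHom.mem_ker]
      exact ⟨fun hg q a _ => Equiv.congr_fun hg a, fun hg => Equiv.ext fun a =>
        hg (Quotient.mk'' a) a (orbitRel_apply.1 (Quotient.exact' (Quotient.out_eq' _).symm))⟩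
    have i2 : ∀ q : Q, (fixingSubgroup G (orbit A (Quotient.out q))).relIndex (toPermHom G Q).ker * 8 ≤
        8 ^ (orbit A (Quotient.out q)).ncard := fun q => by
      have pos : 0 < (orbit A (Quotient.out q)).ncard := (Set.ncard_pos (Set.toFinite _)).2 ⟨_, mem_orbit_self _⟩
      rw [step _ _ _ (mem_orbit_self (Quotient.out q))]
      refine le_trans (Nat.mul_le_mul_right _ (Nat.mul_le_mul (orb A hc _ _ _ (fun g hg => hg.1) ?_)
        (stabIdx _ _ _ fun g hg => ?_))) (num _ pos)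
      · refine (Nat.lt_pow_succ_log_self (b := 2) (by norm_num) _).trans_le (Nat.le_mul_of_pos_left _ ?_)
        exact (Set.ncard_pos (Set.toFinite _)).2 ⟨_, mem_orbit_self _, fun g hg => hg.1⟩
      · exact orbitRel_apply.1 (Quotient.exact' ((sm g _).symm.trans (Equiv.congr_fun hg (Quotient.mk'' (Quotient.out q)))))
    have e2 : Nat.card Ω = ∑ q : Q, (orbit A (Quotient.out q)).ncard := by
      rw [Nat.card_congr (selfEquivSigmaOrbits A Ω), Nat.card_sigma]; rfl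
    rw [← Subgroup.relIndex_mul_index le, e2, ← Finset.prod_pow_eq_pow_sum]
    refine le_trans ?_ (Finset.prod_le_prod' fun q _ => i2 q)
    rw [Finset.prod_mul_distrib, Finset.prod_const, Finset.card_univ, ← Nat.card_eq_fintype_card]
    exact Nat.mul_le_mul (by rw [e]; exact Subgroup.relIndex_iInf_le _) i1

theorem half {Ω : Type} [Finite Ω] [MulAction G Ω] (A : Subgroup G) [hA : A.Normal] (g : G) (a : Ω)
    (h2 : g • a ∉ orbit (⁅A, A⁆ : Subgroup G) a) :
    (orbit A a).ncard ≤ 2 * {c ∈ orbit A a | g • c ≠ c}.ncard := by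
  have := Set.ncard_inter_add_ncard_sdiff_eq_ncard (orbit A a) {c | g • c ≠ c}
  suffices ((orbit A a) \ {c | g • c ≠ c}).ncard ≤ (orbit A a ∩ {c | g • c ≠ c}).ncard by
    change _ ≤ 2 * (orbit A a ∩ {c | g • c ≠ c}).ncard
    omega
  rcases ((orbit A a) \ {c | g • c ≠ c}).eq_empty_or_nonempty with e | ⟨_, ⟨h, rfl⟩, hb⟩
  · simp [e]
  refine Set.ncard_le_ncard_of_injOn (fun c => h⁻¹.1 • c) ?_ (MulAction.injective _).injOn
  rintro _ ⟨⟨u, rfl⟩, hu⟩
  refine ⟨⟨h⁻¹ * u, mul_smul _ _ _⟩, fun e => h2 ?_⟩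
  simp only [Set.mem_ofPred_eq, not_not, Subgroup.smul_def, Subgroup.coe_inv] at hb hu e
  have m := hA.conj_mem _ (A.inv_mem h.2) g
  refine ⟨⟨⁅g * h.1⁻¹ * g⁻¹, h.1 * u.1⁻¹⁆ * ⁅h.1, u.1⁻¹⁆, mul_mem (Subgroup.commutator_mem_commutator m
    (mul_mem h.2 (A.inv_mem u.2))) (Subgroup.commutator_mem_commutator h.2 (A.inv_mem u.2))⟩, ?_⟩
  have e1 : g⁻¹ • h.1 • a = h.1 • a := inv_smul_eq_iff.2 hb.symm
  have e2 : g⁻¹ • h.1⁻¹ • u.1 • a = h.1⁻¹ • u.1 • a := inv_smul_eq_iff.2 e.symm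
  simp [Subgroup.smul_def, commutatorElement_def, mul_smul, e1, e2, hu]

end Pool.Agent.H.MP_69a6f7_al
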