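import Pool.Agent.H.MP_69a6f7_al.A

open MulAction Finset Equiv
open scoped Classical

namespace Pool.Agent.H.MP_69a6f7_al

variable {Ω : Type} [Fintype Ω] [DecidableEq Ω]

omit [Fintype Ω] in
theorem lam (L : Finset (Finset Ω)) (hl : ∀ V ∈ L, ∀ W ∈ L, Disjoint V W ∨ V ⊆ W ∨ W ⊆ V) (h0 : ∅ ∉ L) (U : Finset Ω) :
    U.Nonempty → #(L.filter (· ⊆ U)) + 1 ≤ 2 * #U := by
  induction U using Finset.strongInductionOn with
  | _ U ih =>
  intro hU
  have := card_pos.2 hU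
  rcases (L.filter (· ⊂ U)).eq_empty_or_nonempty with e | ne
  · have : #(L.filter (· ⊆ U)) ≤ #({U} : Finset (Finset Ω)) := card_le_card fun V hV => by
      rw [mem_filter] at hV
      rcases eq_or_ssubset_of_subset hV.2 with h | h
      · simp [h]
      · exact absurd (mem_filter.2 ⟨hV.1, h⟩) (by rw [e]; simp)
    rw [card_singleton] at this; omega
  obtain ⟨V, hV⟩ := Finset.exists_maximal ne
  have h1 := mem_filter.1 hV.1
  have n1 : V.Nonempty := nonempty_iff_ne_empty.2 fun e => h0 (e ▸ h1.1)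
  have i1 := ih V h1.2 n1
  have i2 := ih (U \ V) (sdiff_ssubset h1.2.1 n1) (sdiff_nonempty.2 h1.2.2)
  have : L.filter (· ⊆ U) ⊆ insert U (L.filter (· ⊆ V) ∪ L.filter (· ⊆ U \ V)) := fun W hW => by
    rw [mem_filter] at hW
    simp only [mem_insert, mem_union, mem_filter]
    rcases eq_or_ssubset_of_subset hW.2 with h | h
    · exact .inl h
    rcases hl W hW.1 V h1.1 with d | d | d
    · exact .inr (.inr ⟨hW.1, subset_sdiff.2 ⟨hW.2, d⟩⟩)
    · exact .inr (.inl ⟨hW.1, d⟩)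
    · exact .inr (.inl ⟨hW.1, hV.2 (mem_filter.2 ⟨hW.1, h⟩) d⟩)
  have := (card_le_card this).trans ((card_insert_le _ _).trans (Nat.succ_le_succ (card_union_le _ _)))
  have := card_sdiff_add_card_eq_card h1.2.1
  omega

theorem supp (H : Subgroup (Perm Ω)) [Group.IsSolvable H] (U : Finset Ω) :
    #{g : Perm Ω | g ∈ H ∧ g.support ⊆ U} ≤ 8 ^ #U := by
  let K : Subgroup (Perm Ω) := H ⊓ fixingSubgroup (Perm Ω) (↑U : Set Ω)ᶜ
  have mK : ∀ g, g ∈ K ↔ g ∈ H ∧ g.support ⊆ U := fun g => by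
    simp only [K, Subgroup.mem_inf, mem_fixingSubgroup_iff, subset_iff, Perm.mem_support, Perm.smul_def, Set.mem_compl_iff,
      mem_coe]
    exact and_congr_right fun _ => forall_congr' fun a => not_imp_comm
  have : Group.IsSolvable K := Group.isSolvable_of_isSolvable_injective (Subgroup.inclusion_injective (inf_le_left : K ≤ H))
  obtain ⟨d, hd⟩ := this.solvable
  have cl : ∀ g : K, ∀ a ∈ U, g.1 a ∈ U := fun g a ha => by
    by_cases e : g.1 a = a
    · rwa [e]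
    · exact ((mK _).1 g.2).2 (Perm.apply_mem_support.2 (Perm.mem_support.2 e))
  let _ : MulAction K U :=
    { smul := fun g a => ⟨g.1 a, cl g a a.2⟩
      one_smul := fun _ => rfl
      mul_smul := fun _ _ _ => rfl }
  have := order d U fun g hg a => by rw [hd, Subgroup.mem_bot] at hg; rw [hg, one_smul]
  have e : (toPermHom K U).ker = ⊥ := eq_bot_iff.2 fun g hg => Subgroup.mem_bot.2 (Subtype.ext (Equiv.ext fun a => by
    by_cases ha : a ∈ U
    · exact congrArg Subtype.val (Equiv.congr_fun hg ⟨a, ha⟩)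
    · exact not_not.1 fun e => ha (((mK _).1 g.2).2 (Perm.mem_support.2 e))))
  rw [e, Subgroup.index_bot, Nat.card_eq_fintype_card (α := U), Fintype.card_coe] at this
  refine le_trans (le_of_eq ?_) this
  rw [Nat.card_eq_fintype_card, Fintype.card_subtype]
  congr 1; ext g; simp [mK]

theorem nodes (H : Subgroup (Perm Ω)) [hH : Group.IsSolvable H] : ∃ L : Finset (Finset Ω),
    (∀ V ∈ L, ∀ W ∈ L, Disjoint V W ∨ V ⊆ W ∨ W ⊆ V) ∧ ∅ ∉ L ∧ (∀ a, {a} ∈ L) ∧
    ∀ g ∈ H, ∀ a, g a ≠ a → ∃ V ∈ L, a ∈ V ∧ g a ∈ V ∧ #V ≤ 2 * #(V ∩ g.support) := by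
  obtain ⟨d, hd⟩ := hH.solvable
  refine ⟨univ.filter fun V : Finset Ω => ∃ i a, (↑V : Set Ω) = orbit (derivedSeries H i) a, ?_, ?_, fun a => ?_, fun g hg a ha => ?_⟩
  · have : ∀ i j, i ≤ j → ∀ a b c : Ω, c ∈ orbit (derivedSeries H i) a → c ∈ orbit (derivedSeries H j) b →
        orbit (derivedSeries H j) b ⊆ orbit (derivedSeries H i) a := fun i j h a b c h1 h2 => by
      rw [← orbit_eq_iff.2 h1, ← orbit_eq_iff.2 h2]
      rintro _ ⟨u, rfl⟩
      exact ⟨⟨u.1, derivedSeries_antitone H h u.2⟩, rfl⟩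
    intro V hV W hW
    obtain ⟨i, a, e1⟩ := (mem_filter.1 hV).2
    obtain ⟨j, b, e2⟩ := (mem_filter.1 hW).2
    by_cases h : Disjoint V W
    · exact .inl h
    obtain ⟨c, h1, h2⟩ := not_disjoint_iff.1 h
    rw [← mem_coe] at h1 h2
    rw [← coe_subset, ← coe_subset, e1, e2]
    rw [e1] at h1; rw [e2] at h2
    rcases le_total i j with h | h
    exacts [.inr (.inr (this i j h a b c h1 h2)), .inr (.inl (this j i h b a c h2 h1))]
  · intro h
    obtain ⟨i, a, e⟩ := (mem_filter.1 h).2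
    have := mem_orbit_self (M := derivedSeries H i) a
    rw [← e] at this; simp at this
  · refine mem_filter.2 ⟨mem_univ _, d, a, ?_⟩
    ext c
    rw [coe_singleton, Set.mem_singleton_iff, hd]
    exact ⟨fun e => e ▸ mem_orbit_self _, fun ⟨u, e⟩ => by rw [← e, Subsingleton.elim u 1]; exact one_smul _ a⟩
  · obtain ⟨i, h1, h2⟩ := Nat.exists_not_and_succ_of_not_zero_of_exists
      (p := fun i => (⟨g, hg⟩ : H) • a ∉ orbit (derivedSeries H i) a) (not_not.2 ⟨⟨⟨g, hg⟩, trivial⟩, rfl⟩)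
      ⟨d, fun ⟨u, e⟩ => ha (by
        have : u.1 = 1 := Subgroup.mem_bot.1 (hd ▸ u.2)
        refine e.symm.trans ?_
        change u.1 • a = a
        rw [this, one_smul])⟩
    have := derivedSeries_normal H i
    have := half (derivedSeries H i) (⟨g, hg⟩ : H) a h2
    refine ⟨(orbit (derivedSeries H i) a).toFinset, mem_filter.2 ⟨mem_univ _, i, a, by simp⟩,
      Set.mem_toFinset.2 (mem_orbit_self a), Set.mem_toFinset.2 (not_not.1 h1), ?_⟩
    rw [← Set.ncard_eq_toFinset_card', ← Set.ncard_coe_finset]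
    convert this using 3
    ext c; simp [Subgroup.smul_def]

theorem subsets {α : Type} (L : Finset α) (n s ρ : ℕ) (hL : #L ≤ 2 * n) (h1 : 1 ≤ s) (h2 : s ≤ n) :
    (#(L.powerset.filter (#· ≤ ρ)) : ℝ) * s ^ ρ ≤ n ^ ρ * 9 ^ s := by
  have n0 : (0 : ℝ) < n := by exact_mod_cast (by omega : 0 < n)
  have t0 : (0 : ℝ) ≤ s / n := by positivity
  have t1 : (s : ℝ) / n ≤ 1 := (div_le_one n0).2 (by exact_mod_cast h2)
  have a1 : (#(L.powerset.filter (#· ≤ ρ)) : ℝ) * (s / n) ^ ρ ≤ ∑ M ∈ L.powerset, (s / n : ℝ) ^ #M := by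
    rw [← nsmul_eq_mul]
    exact (card_nsmul_le_sum _ _ _ fun M hM => pow_le_pow_of_le_one t0 t1 (mem_filter.1 hM).2).trans
      (sum_le_sum_of_subset_of_nonneg (filter_subset _ _) fun _ _ _ => by positivity)
  have a2 : ∑ M ∈ L.powerset, (s / n : ℝ) ^ #M = (s / n + 1) ^ #L := by
    rw [← sum_pow_mul_eq_add_pow]; simp
  have a3 : (s / n + 1 : ℝ) ^ #L ≤ 9 ^ s := by
    calc _ ≤ (s / n + 1 : ℝ) ^ (2 * n) := pow_le_pow_right₀ (by linarith) hL
      _ ≤ Real.exp (s / n) ^ (2 * n) := pow_le_pow_left₀ (by linarith) (Real.add_one_le_exp _) _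
      _ = (Real.exp 1 ^ 2) ^ s := by
        rw [← Real.exp_nat_mul, ← Real.exp_nat_mul, ← Real.exp_nat_mul]; congr 1; push_cast; field_simp
      _ ≤ _ := pow_le_pow_left₀ (by positivity) (by have := Real.exp_one_lt_three; have := Real.exp_pos 1; nlinarith) _
  rw [a2, div_pow, ← mul_div_assoc] at a1
  rw [mul_comm ((n : ℝ) ^ ρ)]
  exact (div_le_iff₀ (by positivity)).1 (a1.trans a3)

theorem struct (H : Subgroup (Perm Ω)) [Group.IsSolvable H] : ∃ r : Ω → Finset Ω, (∀ a, a ∈ r a) ∧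
    (∀ a b, b ∈ r a → a ∈ r b) ∧ (∀ a, #(r a) ≤ 8) ∧ ∀ s ρ : ℕ, 1 ≤ s → s ≤ Fintype.card Ω →
    (#{g : Perm Ω | g ∈ H ∧ #g.support = s ∧ 4 * s < 8 * (ρ + 1) + 2 * #{a | g a ∉ r a}} : ℝ) * s ^ ρ ≤
      Fintype.card Ω ^ ρ * 576 ^ s := by
  obtain ⟨L, hl, h0, h1, hg⟩ := nodes H
  refine ⟨fun a => {b | ∃ V ∈ L, #V ≤ 8 ∧ a ∈ V ∧ b ∈ V}, fun a => ?_, fun a b h => ?_, fun a => ?_, fun s ρ s1 s2 => ?_⟩
  · exact mem_filter.2 ⟨mem_univ _, {a}, h1 a, by simp⟩
  · obtain ⟨V, a1, a2, a3, a4⟩ := (mem_filter.1 h).2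
    exact mem_filter.2 ⟨mem_univ _, V, a1, a2, a4, a3⟩
  · obtain ⟨V, hV⟩ := Finset.exists_maximal (s := L.filter fun V => #V ≤ 8 ∧ a ∈ V) ⟨{a}, by simp [h1]⟩
    have h2 := mem_filter.1 hV.1
    refine le_trans (card_le_card fun b h => ?_) h2.2.1
    obtain ⟨W, a1, a2, a3, a4⟩ := (mem_filter.1 h).2
    rcases hl V h2.1 W a1 with d | d | d
    · exact absurd a3 (disjoint_left.1 d h2.2.2)
    · exact hV.2 (mem_filter.2 ⟨a1, a2, a3⟩) d a4
    · exact d a4
  have hL : #L ≤ 2 * Fintype.card Ω := by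
    have := lam L hl h0 univ (card_pos.1 (by rw [card_univ]; omega))
    rw [filter_true_of_mem fun _ _ => subset_univ _, card_univ] at this; omega
  refine le_trans (mul_le_mul_of_nonneg_right ?_ (by positivity)) ((mul_le_mul_of_nonneg_left
    (subsets L _ s ρ hL s1 s2) (by positivity : (0 : ℝ) ≤ 64 ^ s)).trans_eq' (mul_assoc _ _ _).symm |>.trans_eq
      (by rw [show (576 : ℝ) = 64 * 9 by norm_num, mul_pow]; ring))
  rw [mul_comm ((64 : ℝ) ^ s)]
  have cov : ∀ g ∈ ({g : Perm Ω | g ∈ H ∧ #g.support = s ∧ 4 * s < 8 * (ρ + 1) +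
      2 * #{a | g a ∉ ({b | ∃ V ∈ L, #V ≤ 8 ∧ a ∈ V ∧ b ∈ V} : Finset Ω)}} : Finset (Perm Ω)),
      g ∈ (L.powerset.filter (#· ≤ ρ)).biUnion fun M =>
        {g : Perm Ω | #(M.biUnion id) ≤ 2 * s ∧ g ∈ H ∧ g.support ⊆ M.biUnion id} := fun g h => by
    obtain ⟨gH, gs, gl⟩ := (mem_filter.1 h).2
    set B : Finset Ω := {a | g a ∉ ({b | ∃ V ∈ L, #V ≤ 8 ∧ a ∈ V ∧ b ∈ V} : Finset Ω)}
    let P := L.filter fun V => 2 ≤ #(V ∩ g.support) ∧ #V ≤ 2 * #(V ∩ g.support)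
    let M := L.filter (Maximal (· ∈ P))
    have c1 : ∀ a ∈ g.support, ∃ V ∈ M, a ∈ V ∧ g a ∈ V := fun a ha => by
      obtain ⟨V, a1, a2, a3, a4⟩ := hg g gH a (Perm.mem_support.1 ha)
      obtain ⟨W, b1, b2⟩ := P.exists_le_maximal (a := V) (mem_filter.2 ⟨a1, one_lt_card.2 ⟨a, mem_inter.2 ⟨a2, ha⟩, g a,
        mem_inter.2 ⟨a3, Perm.apply_mem_support.2 ha⟩, (Perm.mem_support.1 ha).symm⟩, a4⟩)
      exact ⟨W, mem_filter.2 ⟨(mem_filter.1 b2.1).1, b2⟩, b1 a2, b1 a3⟩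
    have c2 : ∀ V ∈ M, ∀ W ∈ M, V ≠ W → Disjoint V W := fun V hV W hW ne => by
      rw [mem_filter] at hV hW
      rcases hl V hV.1 W hW.1 with d | d | d
      exacts [d, absurd (d.antisymm (hV.2.2 hW.2.1 d)) ne, absurd (Subset.antisymm (hW.2.2 hV.2.1 d) d) ne]
    have c3 : ∑ V ∈ M, #(V ∩ g.support) ≤ s := by
      rw [← card_biUnion fun V hV W hW ne => (c2 V hV W hW ne).mono inter_subset_left inter_subset_left, ← gs]
      exact card_le_card (biUnion_subset.2 fun _ _ => inter_subset_right)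
    have bs : B ⊆ g.support := fun a ha => Perm.mem_support.2 fun e => (mem_filter.1 ha).2
      (mem_filter.2 ⟨mem_univ _, {a}, h1 a, by simp [e]⟩)
    have c4 : #B ≤ ∑ V ∈ M, #(V ∩ B) := le_trans (card_le_card fun a ha => by
      obtain ⟨V, a1, a2, _⟩ := c1 a (bs ha)
      exact mem_biUnion.2 ⟨V, a1, mem_inter.2 ⟨a2, ha⟩⟩) card_biUnion_le
    have c5 : ∑ V ∈ M, (8 + 2 * #(V ∩ B)) ≤ ∑ V ∈ M, 4 * #(V ∩ g.support) := sum_le_sum fun V hV => by
      have p := (mem_filter.1 (mem_filter.1 hV).2.1).2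
      have q : #(V ∩ B) ≤ #(V ∩ g.support) := card_le_card (inter_subset_inter_left bs)
      by_cases sm : #V ≤ 8
      · have : V ∩ B = ∅ := eq_empty_of_forall_notMem fun a ha => by
          rw [mem_inter] at ha
          obtain ⟨W, a1, a2, a3⟩ := c1 a (bs ha.2)
          obtain rfl : V = W := not_not.1 fun ne => disjoint_left.1 (c2 V hV W a1 ne) ha.1 a2
          exact (mem_filter.1 ha.2).2 (mem_filter.2 ⟨mem_univ _, V, (mem_filter.1 hV).1, sm, a2, a3⟩)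
        rw [this, card_empty]; omega
      · omega
    rw [sum_add_distrib, ← mul_sum, ← mul_sum, sum_const, smul_eq_mul] at c5
    refine mem_biUnion.2 ⟨M, mem_filter.2 ⟨mem_powerset.2 (filter_subset _ _), by omega⟩, mem_filter.2 ⟨mem_univ _,
      card_biUnion_le.trans ?_, gH, fun a ha => ?_⟩⟩
    · refine le_trans (sum_le_sum fun V hV => (mem_filter.1 (mem_filter.1 hV).2.1).2.2) ?_
      rw [← mul_sum]; omega
    · obtain ⟨V, a1, a2, _⟩ := c1 a ha
      exact mem_biUnion.2 ⟨V, a1, a2⟩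
  have := (card_le_card cov).trans (card_biUnion_le_card_mul _ _ (64 ^ s) fun M _ => by
    by_cases h : #(M.biUnion id) ≤ 2 * s
    · simp only [h, true_and]
      refine (supp H _).trans ((Nat.pow_le_pow_right (by norm_num) h).trans_eq ?_)
      rw [pow_mul]; norm_num
    · simp [h])
  exact_mod_cast this

end Pool.Agent.H.MP_69a6f7_al
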