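import Mathlib

open Finset Equiv
open scoped Classical Nat

namespace Pool.Agent.H.MP_69a6f7_al

variable {Ω : Type} [Fintype Ω] [DecidableEq Ω]

theorem conj (h k : Perm Ω) (s : ℕ) (hs : #h.support = s) (s1 : 1 ≤ s) :
    #{x : Perm Ω | x * h * x⁻¹ = k} ≤ (Fintype.card Ω - s)! * s ^ (s / 2) := by
  rcases ({x : Perm Ω | x * h * x⁻¹ = k} : Finset _).eq_empty_or_nonempty with e | ⟨y, hy⟩
  · simp [e]
  have a1 : #{x : Perm Ω | x * h * x⁻¹ = k} ≤ Nat.card (Subgroup.centralizer {h}) := by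
    rw [Nat.card_eq_fintype_card, Fintype.card_subtype]
    refine card_le_card_of_injOn (fun x => y⁻¹ * x) (fun x hx => ?_) (mul_right_injective _).injOn
    simp only [coe_filter, mem_univ, true_and, Set.mem_ofPred_eq, mem_filter, Subgroup.mem_centralizer_singleton_iff] at *
    calc y⁻¹ * x * h = y⁻¹ * (x * h * x⁻¹) * x := by group
      _ = y⁻¹ * (y * h * y⁻¹) * x := by rw [hx, hy]
      _ = _ := by group
  rw [Perm.nat_card_centralizer, Perm.sum_cycleType, hs, mul_assoc] at a1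
  refine a1.trans (Nat.mul_le_mul_left _ ?_)
  have sm : h.cycleType.sum = s := by rw [Perm.sum_cycleType, hs]
  have two := fun l => Perm.two_le_of_mem_cycleType (σ := h) (n := l)
  generalize h.cycleType = m at *
  have a2 : m.card • 2 ≤ m.sum := Multiset.card_nsmul_le_sum two
  rw [prod_multiset_count, ← prod_mul_distrib]
  calc _ ≤ ∏ l ∈ m.toFinset, s ^ m.count l := prod_le_prod' fun l hl => by
        refine (Nat.mul_le_mul_left _ (Nat.factorial_le_pow _)).trans ?_
        rw [← mul_pow]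
        refine Nat.pow_le_pow_left ?_ _
        rw [← sm, sum_multiset_count, mul_comm]
        exact single_le_sum (f := fun l => m.count l • l) (fun _ _ => Nat.zero_le _) hl
    _ = s ^ m.card := by rw [prod_pow_eq_pow_sum, Multiset.toFinset_sum_count_eq]
    _ ≤ _ := Nat.pow_le_pow_right s1 (by rw [smul_eq_mul] at a2; omega)

structure Nb (r : Ω → Finset Ω) : Prop where
  rf : ∀ a, a ∈ r a
  sy : ∀ a b, b ∈ r a → a ∈ r b
  le : ∀ a, #(r a) ≤ 8

variable {r q : Ω → Finset Ω}

noncomputable def T (r q : Ω → Finset Ω) (S : Finset Ω) : Finset (Perm Ω) :=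
  {x | ∀ a ∈ S, ∀ b ∈ r a, b ≠ a → x b ∉ q (x a)}

omit [Fintype Ω] in
theorem u1 (hr : Nb r) (hq : Nb q) (x : Perm Ω) (a : Ω) : ∃ U : Finset Ω, #U ≤ 64 ∧ ∀ c, ∀ b ∈ r a, x c ∈ q (x b) → c ∈ U :=
  ⟨(r a).biUnion fun b => (q (x b)).image x.symm, (card_biUnion_le_card_mul _ _ 8 fun _ _ => card_image_le.trans (hq.le _)).trans
    (Nat.mul_le_mul_right 8 (hr.le a)), fun c b h1 h2 => mem_biUnion.2 ⟨b, h1, mem_image.2 ⟨_, h2, by simp⟩⟩⟩

theorem safe (hr : Nb r) (hq : Nb q) (S : Finset Ω) (x : Perm Ω) (hx : x ∈ T r q S) (a : Ω) :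
    ∃ C : Finset Ω, Fintype.card Ω - 128 ≤ #C ∧ ∀ c ∈ C, c ∉ r a ∧ x * swap a c ∈ T r q S := by
  obtain ⟨U, h1, h2⟩ := u1 hr hq x a
  obtain ⟨V, h3, h4⟩ := u1 hq hr x.symm (x a)
  refine ⟨(U ∪ V.image x.symm)ᶜ, ?_, fun c hc => ?_⟩
  · have := card_union_le U (V.image x.symm)
    have := card_image_le (s := V) (f := x.symm)
    rw [card_compl]; omega
  rw [mem_compl, mem_union, not_or] at hc
  have h5 : ∀ b, x b ∈ q (x a) → c ∉ r b := fun b h h' =>
    hc.2 (mem_image.2 ⟨x c, h4 (x c) (x b) h (by simpa using h'), by simp⟩)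
  have h6 : ∀ b ∈ r a, x c ∉ q (x b) := fun b h h' => hc.1 (h2 c b h h')
  have h7 : c ∉ r a := fun h => h6 c h (hq.rf _)
  refine ⟨h7, mem_filter.2 ⟨mem_univ _, fun p hp b hb ne => ?_⟩⟩
  have := (mem_filter.1 hx).2 p hp b hb ne
  have := hr.sy p b hb
  have := hq.sy
  simp only [Perm.mul_apply, swap_apply_def]
  grind

theorem sw (hr : Nb r) (hq : Nb q) (S : Finset Ω) (a : Ω) (X Y : Finset (Perm Ω)) (m : ℕ) (hX : X ⊆ T r q S)
    (h1 : ∀ x ∈ X, ∀ c, c ∉ r a → x * swap a c ∈ T r q S → x * swap a c ∈ Y)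
    (h2 : ∀ y, ∃ U : Finset Ω, #U ≤ m ∧ ∀ x ∈ X, ∀ c, c ∉ r a → x * swap a c = y → c ∈ U) :
    #X * (Fintype.card Ω - 128) ≤ #Y * m := by
  refine card_mul_le_card_mul (fun x y => ∃ c, c ∉ r a ∧ x * swap a c = y) (fun x hx => ?_) fun y _ => ?_
  · obtain ⟨C, c1, c2⟩ := safe hr hq S x (hX hx) a
    refine c1.trans (card_le_card_of_injOn (fun c => x * swap a c) (fun c hc => ?_) fun c _ c' _ e => ?_)
    · exact mem_coe.2 (mem_filter.2 ⟨h1 x hx c (c2 c hc).1 (c2 c hc).2, c, (c2 c hc).1, rfl⟩)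
    · simpa using Equiv.congr_fun (mul_left_cancel e) a
  · obtain ⟨U, c1, c2⟩ := h2 y
    refine le_trans (card_le_card fun x hx => ?_) ((card_image_le (f := fun c => y * swap a c)).trans c1)
    obtain ⟨hx, c, e1, e2⟩ := mem_filter.1 hx
    exact mem_image.2 ⟨c, c2 x hx c e1 e2, by rw [← e2, mul_assoc, swap_mul_self, mul_one]⟩

theorem low (hr : Nb r) (hq : Nb q) (hn : 256 ≤ Fintype.card Ω) (S : Finset Ω) :
    ((Fintype.card Ω)! : ℝ) * (1 - 128 / Fintype.card Ω) ^ #S ≤ #(T r q S) := by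
  have n0 : (256 : ℝ) ≤ Fintype.card Ω := by exact_mod_cast hn
  induction S using Finset.induction_on with
  | empty => simp [T, Fintype.card_perm]
  | insert a S ha ih =>
    have sb : T r q (insert a S) ⊆ T r q S := fun x hx =>
      mem_filter.2 ⟨mem_univ _, fun p hp => (mem_filter.1 hx).2 p (mem_insert_of_mem hp)⟩
    have h := sw hr hq S a (T r q S \ T r q (insert a S)) (T r q S) 64 sdiff_subset (fun _ _ _ _ h => h) fun y => by
      obtain ⟨U, h1, h2⟩ := u1 hr hq y a
      refine ⟨U, h1, fun x hx c hc e => ?_⟩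
      simp only [T, mem_sdiff, mem_filter, mem_univ, true_and, forall_mem_insert] at hx
      obtain ⟨b, b1, b2, b3⟩ : ∃ b ∈ r a, b ≠ a ∧ x b ∈ q (x a) := by grind
      refine h2 c b b1 (hq.sy _ _ ?_)
      rw [← e, Perm.mul_apply, Perm.mul_apply, swap_apply_right, swap_apply_of_ne_of_ne b2 fun e : b = c => hc (e ▸ b1)]
      exact b3
    have e := card_sdiff_add_card_eq_card sb
    have h' : #(T r q S \ T r q (insert a S)) * Fintype.card Ω ≤ #(T r q S) * 128 := by
      have := Nat.mul_le_mul_left #(T r q S \ T r q (insert a S))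
        (show Fintype.card Ω ≤ 2 * (Fintype.card Ω - 128) by omega)
      rw [Nat.mul_left_comm] at this
      omega
    have h3 : (#(T r q S \ T r q (insert a S)) : ℝ) ≤ #(T r q S) * (128 / Fintype.card Ω) := by
      rw [← mul_div_assoc, le_div_iff₀ (by linarith)]; exact_mod_cast h'
    have e' : (#(T r q S \ T r q (insert a S)) : ℝ) + #(T r q (insert a S)) = #(T r q S) := by exact_mod_cast e
    have p : (0 : ℝ) ≤ 1 - 128 / Fintype.card Ω := by rw [sub_nonneg, div_le_one (by linarith)]; linarith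
    rw [card_insert_of_notMem ha, pow_succ, ← mul_assoc]
    have := mul_le_mul_of_nonneg_right ih p
    linarith

theorem even (hr : Nb r) (hq : Nb q) (hn : 256 ≤ Fintype.card Ω) :
    ((Fintype.card Ω)! : ℝ) * (Real.exp (-256) / 3) ≤ #((T r q univ).filter fun x => Perm.sign x = 1) := by
  have n0 : (256 : ℝ) ≤ Fintype.card Ω := by exact_mod_cast hn
  obtain ⟨a⟩ : Nonempty Ω := Fintype.card_pos_iff.1 (by omega)
  have h := sw hr hq univ a ((T r q univ).filter fun x => ¬ Perm.sign x = 1) ((T r q univ).filter fun x => Perm.sign x = 1)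
    (Fintype.card Ω) (filter_subset _ _) (fun x hx c hc h => mem_filter.2 ⟨h, by
      rw [Perm.sign_mul, Perm.sign_swap fun e : a = c => hc (e ▸ hr.rf a), (Int.units_eq_one_or _).resolve_left (mem_filter.1 hx).2]
      simp⟩) fun y => ⟨univ, le_rfl, fun _ _ _ _ _ => mem_univ _⟩
  have e := card_filter_add_card_filter_not (s := T r q univ) fun x => Perm.sign x = 1
  have h' : #(T r q univ) ≤ 3 * #((T r q univ).filter fun x => Perm.sign x = 1) := by
    have := Nat.mul_le_mul_left #((T r q univ).filter fun x => ¬ Perm.sign x = 1)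
      (show Fintype.card Ω ≤ 2 * (Fintype.card Ω - 128) by omega)
    have : #((T r q univ).filter fun x => ¬ Perm.sign x = 1) * Fintype.card Ω ≤
      (2 * #((T r q univ).filter fun x => Perm.sign x = 1)) * Fintype.card Ω := by
      rw [Nat.mul_left_comm] at this
      rw [mul_assoc]
      omega
    have := Nat.le_of_mul_le_mul_right this (by omega)
    omega
  have h2 : (#(T r q univ) : ℝ) ≤ 3 * #((T r q univ).filter fun x => Perm.sign x = 1) := by exact_mod_cast h'
  have h3 := low hr hq hn univ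
  have h4 : Real.exp (-256) ≤ (1 - 128 / Fintype.card Ω : ℝ) ^ #(univ : Finset Ω) := by
    rw [card_univ]
    generalize Fintype.card Ω = n at *
    have y0 : (0 : ℝ) ≤ 128 / n := by positivity
    have y1 : (128 : ℝ) / n ≤ 1 / 2 := by rw [div_le_iff₀ (by linarith)]; linarith
    have : Real.exp (-(2 * (128 / n))) ≤ 1 - 128 / n := by
      have := Real.add_one_le_exp (2 * (128 / n : ℝ))
      rw [Real.exp_neg, inv_le_iff_one_le_mul₀ (Real.exp_pos _)]
      generalize (128 : ℝ) / n = y at *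
      have := mul_le_mul_of_nonneg_left this (show 0 ≤ 1 - y by linarith)
      have := mul_nonneg y0 (show 0 ≤ 1 - 2 * y by linarith)
      linarith
    refine le_trans (le_of_eq ?_) (pow_le_pow_left₀ (Real.exp_pos _).le this n)
    rw [← Real.exp_nat_mul]; congr 1; field_simp; norm_num
  have := mul_le_mul_of_nonneg_left h4 (Nat.cast_nonneg (α := ℝ) (Fintype.card Ω)!)
  linarith

end Pool.Agent.H.MP_69a6f7_al
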