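import Pool.Agent.H.MP_69a6f7_al.B
import Pool.Agent.H.MP_69a6f7_al.C

open Finset Equiv
open scoped Classical Nat

namespace Pool.Agent.H.MP_69a6f7_al

theorem fac (n s : ℕ) (h : s ≤ n) : ((n - s)! : ℝ) * n ^ s ≤ 3 ^ s * n ! := by
  have a1 : n ^ s * s ! ≤ s ^ s * n.descFactorial s := by
    rw [← Nat.descFactorial_self, Nat.descFactorial_eq_prod_range, Nat.descFactorial_eq_prod_range]
    rw [show n ^ s = ∏ _i ∈ range s, n by simp, show s ^ s = ∏ _i ∈ range s, s by simp, ← prod_mul_distrib,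
      ← prod_mul_distrib]
    refine prod_le_prod' fun i _ => ?_
    rw [Nat.mul_sub, Nat.mul_sub, mul_comm n s]
    exact Nat.sub_le_sub_left (Nat.mul_le_mul_right i h) _
  have f0 : (0 : ℝ) < s ! := by exact_mod_cast s.factorial_pos
  have a2 : (s : ℝ) ^ s ≤ 3 ^ s * s ! := by
    have := Real.pow_div_factorial_le_exp (s : ℝ) (Nat.cast_nonneg s) s
    rw [div_le_iff₀ f0] at this
    refine this.trans (mul_le_mul_of_nonneg_right ?_ f0.le)
    rw [← mul_one (s : ℝ), Real.exp_nat_mul]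
    exact pow_le_pow_left₀ (Real.exp_pos _).le Real.exp_one_lt_three.le _
  have a3 : (n : ℝ) ^ s * s ! ≤ s ^ s * n.descFactorial s := by exact_mod_cast a1
  have a4 : (n : ℝ) ^ s ≤ 3 ^ s * n.descFactorial s := le_of_mul_le_mul_right
    (a3.trans ((mul_le_mul_of_nonneg_right a2 (Nat.cast_nonneg _)).trans_eq (by ring))) f0
  rw [← Nat.factorial_mul_descFactorial h, Nat.cast_mul, mul_left_comm]
  exact mul_le_mul_of_nonneg_left a4 (Nat.cast_nonneg _)

theorem term (n s t a b : ℕ) (t0 : 0 < t) (s1 : 1 ≤ s) (h : s ≤ n) (hn : (576 * 576 * 3 * t) ^ 8 ≤ n)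
    (ha : (a : ℝ) * s ^ (s / 2) ≤ n ^ (s / 2) * 576 ^ s) (hb : (b : ℝ) * s ^ (3 * s / 8) ≤ n ^ (3 * s / 8) * 576 ^ s) :
    ((a * b * ((n - s)! * s ^ (s / 2)) : ℕ) : ℝ) ≤ n ! * (1 / t) ^ s := by
  have hb' : (b : ℝ) ≤ n ^ (3 * s / 8) * 576 ^ s :=
    (le_mul_of_one_le_right (Nat.cast_nonneg _) (one_le_pow₀ (by exact_mod_cast s1))).trans hb
  have a1 : n ^ (s / 2 + 3 * s / 8) * (576 * 576 * 3 * t) ^ s ≤ n ^ s := by
    calc _ ≤ n ^ (s / 2 + 3 * s / 8) * ((576 * 576 * 3 * t) ^ 8) ^ (s - (s / 2 + 3 * s / 8)) := by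
          rw [← pow_mul]; exact Nat.mul_le_mul_left _ (Nat.pow_le_pow_right (by omega) (by omega))
      _ ≤ n ^ (s / 2 + 3 * s / 8) * n ^ (s - (s / 2 + 3 * s / 8)) := Nat.mul_le_mul_left _ (Nat.pow_le_pow_left hn _)
      _ = _ := by rw [← pow_add]; congr 1; omega
  have a2 : (n : ℝ) ^ (s / 2 + 3 * s / 8) * (576 * 576 * 3 * t) ^ s ≤ n ^ s := by exact_mod_cast a1
  have n0 : (0 : ℝ) < n ^ s := pow_pos (by exact_mod_cast (by omega : 0 < n)) _
  have t1 : (0 : ℝ) < t ^ s := pow_pos (by exact_mod_cast t0) _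
  rw [one_div, inv_pow, ← div_eq_mul_inv, le_div_iff₀ t1]
  refine le_of_mul_le_mul_right ?_ n0
  push_cast
  calc _ = (a * (s : ℝ) ^ (s / 2)) * b * (((n - s)! : ℝ) * n ^ s) * t ^ s := by ring
    _ ≤ (n ^ (s / 2) * 576 ^ s) * (n ^ (3 * s / 8) * 576 ^ s) * (3 ^ s * n !) * (t : ℝ) ^ s := by
      have := fac n s h
      exact mul_le_mul_of_nonneg_right (mul_le_mul (mul_le_mul ha hb' (by positivity) (by positivity)) this
        (by positivity) (by positivity)) t1.le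
    _ = n ! * ((n : ℝ) ^ (s / 2 + 3 * s / 8) * (576 * 576 * 3 * t) ^ s) := by rw [mul_pow, mul_pow, mul_pow, pow_add]; ring
    _ ≤ _ := mul_le_mul_of_nonneg_left a2 (Nat.cast_nonneg _)

theorem main : ∃ N : ℕ, ∀ (Ω : Type) [Fintype Ω] [DecidableEq Ω], N ≤ Fintype.card Ω → ∀ H K : Subgroup (Perm Ω),
    Group.IsSolvable H → Group.IsSolvable K → ∃ x : Perm Ω, Perm.sign x = 1 ∧ ∀ h ∈ H, x * h * x⁻¹ ∈ K → h = 1 := by
  obtain ⟨c, c0, hc⟩ : ∃ c : ℝ, 0 < c ∧ c = Real.exp (-256) / 3 := ⟨_, by positivity, rfl⟩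
  obtain ⟨t, ht⟩ := exists_nat_gt (4 / c + 2)
  have t2 : (2 : ℝ) < t := by have : 0 < 4 / c := by positivity
                              linarith
  have t0 : 0 < t := by exact_mod_cast (by linarith : (0 : ℝ) < t)
  refine ⟨max 256 ((576 * 576 * 3 * t) ^ 8), fun Ω _ _ hn H K _ _ => ?_⟩
  obtain ⟨r, r1, r2, r3, hr⟩ := struct H
  obtain ⟨q, q1, q2, q3, hq⟩ := struct K
  have ev := even (r := r) (q := q) ⟨r1, r2, r3⟩ ⟨q1, q2, q3⟩ (le_of_max_le_left hn)
  by_contra! no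
  let X (H : Subgroup (Perm Ω)) (r : Ω → Finset Ω) (s ρ : ℕ) : Finset (Perm Ω) :=
    {g : Perm Ω | g ∈ H ∧ #g.support = s ∧ 4 * s < 8 * (ρ + 1) + 2 * #{a | g a ∉ r a}}
  let P (s : ℕ) := X H r s (s / 2) ×ˢ X K q s (3 * s / 8) ∪ X H r s (3 * s / 8) ×ˢ X K q s (s / 2)
  have cov : ((T r q univ).filter fun x => Perm.sign x = 1) ⊆ (range (Fintype.card Ω)).biUnion fun s =>
      (P (s + 1)).biUnion fun p => {x : Perm Ω | x * p.1 * x⁻¹ = p.2} := fun x hx => by
    obtain ⟨h, h1, h2, h3⟩ := no x (mem_filter.1 hx).2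
    have tx := (mem_filter.1 (mem_filter.1 hx).1).2
    have s0 : #h.support ≠ 0 := fun e => h3 (Perm.card_support_eq_zero.1 e)
    obtain ⟨s, hs⟩ := Nat.exists_eq_succ_of_ne_zero s0
    have s1 := card_le_univ h.support
    have s2 : #(x * h * x⁻¹).support = s + 1 := Perm.card_support_conj.trans hs
    have s3 : #h.support ≤ #{a | h a ∉ r a} + #{y | (x * h * x⁻¹) y ∉ q y} := by
      rw [← card_image_of_injective {y | (x * h * x⁻¹) y ∉ q y} x.symm.injective]
      refine le_trans (card_le_card fun a ha => ?_) (card_union_le _ _)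
      by_cases e : h a ∈ r a
      · exact mem_union_right _ (mem_image.2 ⟨x a, mem_filter.2 ⟨mem_univ _, by
          simpa using tx a (mem_univ _) _ e (Perm.mem_support.1 ha)⟩, by simp⟩)
      · exact mem_union_left _ (mem_filter.2 ⟨mem_univ _, e⟩)
    refine mem_biUnion.2 ⟨s, mem_range.2 (by omega), mem_biUnion.2 ⟨(h, x * h * x⁻¹), ?_, mem_filter.2 ⟨mem_univ _, rfl⟩⟩⟩
    simp only [P, X, mem_union, mem_product, mem_filter, mem_univ, true_and, h1, h2, hs, s2]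
    omega
  have bd : ∀ s ∈ range (Fintype.card Ω), (#((P (s + 1)).biUnion fun p => {x : Perm Ω | x * p.1 * x⁻¹ = p.2}) : ℝ) ≤
      (Fintype.card Ω)! * (2 / t) * (1 / 2) ^ s := fun s hs => by
    rw [mem_range] at hs
    have b1 := card_biUnion_le_card_mul (P (s + 1)) (fun p => {x : Perm Ω | x * p.1 * x⁻¹ = p.2}) _ fun p hp =>
      conj p.1 p.2 (s + 1) (by
        rcases mem_union.1 hp with h | h <;> exact (mem_filter.1 (mem_product.1 h).1).2.2.1) (by omega)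
    have b2 : #(P (s + 1)) ≤ _ := card_union_le _ _
    rw [card_product, card_product, mul_comm #(X H r _ (3 * _ / 8))] at b2
    have b3 := b1.trans (Nat.mul_le_mul_right _ b2)
    rw [add_mul] at b3
    have b4 := term _ (s + 1) t _ _ t0 (by omega) hs (le_of_max_le_right hn) (hr _ _ (by omega) hs) (hq _ _ (by omega) hs)
    have b5 := term _ (s + 1) t _ _ t0 (by omega) hs (le_of_max_le_right hn) (hq _ _ (by omega) hs) (hr _ _ (by omega) hs)
    refine le_trans (Nat.cast_le.2 b3) ?_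
    rw [Nat.cast_add]
    refine (add_le_add b4 b5).trans ?_
    have : (1 / t : ℝ) ^ s ≤ (1 / 2) ^ s := by gcongr
    calc _ = (Fintype.card Ω)! * (2 / t) * (1 / t : ℝ) ^ s := by ring
      _ ≤ _ := by gcongr
  have f1 := (Nat.cast_le (α := ℝ)).2 ((card_le_card cov).trans card_biUnion_le)
  rw [Nat.cast_sum] at f1
  have f2 := ev.trans (f1.trans (sum_le_sum bd))
  rw [← mul_sum, ← hc, mul_assoc] at f2
  have f3 := le_of_mul_le_mul_left f2 (by exact_mod_cast Nat.factorial_pos _)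
  have f4 := f3.trans (mul_le_mul_of_nonneg_left (sum_geometric_two_le _) (by positivity))
  rw [div_mul_eq_mul_div, le_div_iff₀ (by linarith)] at f4
  have : 4 / c < t := by linarith
  rw [div_lt_iff₀ c0] at this
  linarith

end Pool.Agent.H.MP_69a6f7_al
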